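import Pool.Agent.V5helper79.PQ.Fin

/-!
# Polyhedra with vertices of degrees three and four, cut along a matching, are rigid

The starting result `CutHingesAreRespected` shows, for every convex polyhedron and every matching `M` of its
1-skeleton, that the motions of the paneled polyhedron cut along `M` are the motions of the paneled polyhedron with all
hinges, which is rigid by the theorem of Cauchy; that theorem is not available in Lean. Here we prove, without the
theorem of Cauchy, that the cut polyhedron is rigid

* (1) if every vertex lies in three or in four panels and there is a vertex in exactly three panels or a triangular
  panel (by Euler's formula, which is not used here, one of these always exists): simple polyhedra, octahedra,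
  antiprisms, pyramids over quadrangles, ...
* (2) if all its panels are glued (`Glued`): they can be put together step by step, where in each step the panels at a
  vertex form three groups which are known to move as rigid bodies (simple polyhedra, pyramids, stacked polytopes).

Proof of (1). Near a time at which all panels move together: at a vertex of degree four, the angles at consecutive
edges change with opposite signs or all four are unchanged (for a convex spherical quadrilateral with fixed sides, one
diagonal grows if and only if the other one shrinks). So around a triangular panel, or at a vertex of degree three, the
angles are unchanged, and as the graph of the polyhedron is connected all the angles are unchanged. So the set of the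
times at which all panels move together is open and closed.
-/

set_option autoImplicit false

namespace Pool.Agent.Results.MP_e0197a_co.DegreesThreeFour

open Pool.Agent.R118.PM Pool.Agent.V5helper79.PP.Conv Pool.Agent.V5helper79.PQ

/-- Let `P` be a convex polyhedron and `M` a matching in its 1-skeleton. The paneled polyhedron cut along `M` is rigid
(1) if every vertex of `P` lies in three or four panels and `P` has a vertex in exactly three panels or a triangular
panel, (2) if all panels of `P` are glued. -/
theorem result {ι : Type} [Fintype ι] (P : Pool.Agent.R118.PM.Poly ι) (hP : IsPolyhedron P)
    (M : Set (Set Pool.Agent.R118.PM.E3)) (hM : IsMatching P M) :
    (DegreesThreeFour P → (∃ v ∈ P.body.extremePoints ℝ, {i | v ∈ P.face i}.ncard = 3) ∨ HasTriangle P → Rigid P M) ∧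
    ((∀ i j : ι, Glued P i j) → Rigid P M) :=
  ⟨fun hD hS => rigid_three_four hP hD hS hM, fun h => glued_rigid hP h hM⟩

end Pool.Agent.Results.MP_e0197a_co.DegreesThreeFour
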